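import Pool.Agent.Q2.PIM.Stm2

/-!
# Project PIM (helper2), job LBO
-/

set_option autoImplicit false

namespace Pool.Agent.Q182.PIM

open Pool.Agent.Q2.PIM

section

variable {A : Type} [Ring A] {x : Fin 6 → Fin 6 → A} (h : Rel6 x) {M : Type} [AddCommGroup M]
  [Module A M]

include h

theorem two_smul_zero (v : M) : v + v = 0 := by
  have h1 := h.two 1
  calc v + v = ((1 : A) + 1) • v := by rw [add_smul, one_smul]
    _ = 0 := by rw [h1, zero_smul]

theorem swap4 (i j r s : Fin 6) : x i j * x r s =
    x r s * x i j + ((if j = r then x i s else 0) + (if s = i then x r j else 0)) := by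
  rw [← h.comm i j r s, add_comm (x i j * x r s), ← add_assoc, h.two, zero_add]

theorem swap_smul (i j r s : Fin 6) (v : M) : x i j • x r s • v =
    x r s • x i j • v + ((if j = r then x i s • v else 0) + (if s = i then x r j • v else 0)) := by
  rw [← mul_smul, swap4 h i j r s, add_smul, add_smul, mul_smul]
  congr 2
  · split_ifs
    · rfl
    · rw [zero_smul]
  · split_ifs
    · rfl
    · rw [zero_smul]

theorem kill_list (l : List Pr) (hl : preB l = true) (v : M) (hv : v ≠ 0) :
    ∃ w : M, w ≠ 0 ∧ ∀ c ∈ l, xe x c • w = 0 := by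
  induction l with
  | nil => exact ⟨v, hv, fun c hc => by cases hc⟩
  | cons b l ih =>
    rw [preB, Bool.and_eq_true, Bool.and_eq_true] at hl
    obtain ⟨⟨h1, h2⟩, h3⟩ := hl
    obtain ⟨w, hw, hwl⟩ := ih h3
    by_cases hb : xe x b • w = 0
    · refine ⟨w, hw, fun c hc => ?_⟩
      rcases List.mem_cons.mp hc with rfl | hc
      · exact hb
      · exact hwl c hc
    · refine ⟨xe x b • w, hb, fun c hc => ?_⟩
      rcases List.mem_cons.mp hc with rfl | hc
      · have h4 : xe x c * xe x c = 0 := h.sq _ _ (of_decide_eq_true h1)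
        rw [← mul_smul, h4, zero_smul]
      · have h4 := brin_of_okp h h2 c hc
        have h5 : xe x c * xe x b = xe x b * xe x c + ox x (br c b) :=
          swap_br h c b (nd_of_brin h h4)
        rw [← mul_smul, h5, add_smul, mul_smul, hwl c hc, smul_zero, zero_add]
        rw [brin, Bool.and_eq_true] at h4
        have h6 := h4.2
        cases hbr : br c b with
        | none => exact zero_smul A w
        | some d =>
          rw [hbr] at h6
          exact hwl d (of_decide_eq_true h6)

theorem exists_low [Nontrivial M] : ∃ w : M, w ≠ 0 ∧ Low x w := by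
  obtain ⟨v, hv⟩ := exists_ne (0 : M)
  obtain ⟨w, hw, hwl⟩ := kill_list h N15.reverse (by decide) v hv
  refine ⟨w, hw, fun i j hij => hwl (i, j) ?_⟩
  revert i j
  decide

/-- the idempotent of a value of a diagonal element -/
def qq (x : Fin 6 → Fin 6 → A) (j : Fin 6) (b : Bool) : A := if b then x j j else 1 + x j j

omit h in
theorem qq_smul_true (j : Fin 6) (w : M) : qq x j true • w = x j j • w := rfl

omit h in
theorem qq_smul_false (j : Fin 6) (w : M) : qq x j false • w = w + x j j • w := by
  show (1 + x j j) • w = _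
  rw [add_smul, one_smul]

theorem diag_qq (j : Fin 6) (b : Bool) (w : M) :
    x j j • qq x j b • w = if b then qq x j b • w else 0 := by
  have h1 : x j j • x j j • w = x j j • w := by rw [← mul_smul, h.idem]
  cases b with
  | true => rw [qq_smul_true, h1]; rfl
  | false =>
    rw [qq_smul_false, smul_add, h1, two_smul_zero h]
    rfl

theorem diag_diag (k j : Fin 6) (w : M) : x k k • x j j • w = x j j • x k k • w := by
  rw [swap_smul h k k j j w]
  by_cases hkj : k = j
  · subst hkj
    rw [if_pos rfl, two_smul_zero h, add_zero]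
  · rw [if_neg hkj, if_neg (fun h1 => hkj h1.symm), add_zero, add_zero]

theorem diag_qq_comm (k j : Fin 6) (b : Bool) (w : M) :
    x k k • qq x j b • w = qq x j b • x k k • w := by
  cases b with
  | true => exact diag_diag h k j w
  | false => rw [qq_smul_false, qq_smul_false, smul_add, diag_diag h k j w]

theorem low_diag (j : Fin 6) (w : M) (hw : Low x w) : Low x (x j j • w) := by
  intro a b hab
  rw [swap_smul h a b j j w, hw a b hab, smul_zero, zero_add]
  have h1 : (if b = j then x a j • w else 0) = 0 := by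
    split_ifs with hb
    · rw [← hb]; exact hw a b hab
    · rfl
  have h2 : (if j = a then x j b • w else 0) = 0 := by
    split_ifs with hb
    · rw [hb]; exact hw a b hab
    · rfl
  rw [h1, h2, add_zero]

theorem low_qq (j : Fin 6) (b : Bool) (w : M) (hw : Low x w) : Low x (qq x j b • w) := by
  cases b with
  | true => exact low_diag h j w hw
  | false =>
    intro a c hac
    rw [qq_smul_false, smul_add, hw a c hac, low_diag h j w hw a c hac, add_zero]

theorem wt_all (p : M → Prop) (B : Fin 6 → Bool → Prop)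
    (hp : ∀ w, p w → ∀ j, ∃ b, B j b ∧ p (qq x j b • w)) (w : M) (hw : p w) :
    ∃ (ν : Fin 6 → Bool) (w' : M), (∀ j, B j (ν j)) ∧ p w' ∧ Wt x ν w' := by
  classical
  have key : ∀ s : Finset (Fin 6), ∃ (ν : Fin 6 → Bool) (w' : M), (∀ j ∈ s, B j (ν j)) ∧ p w' ∧
      ∀ j ∈ s, x j j • w' = if ν j then w' else 0 := by
    intro s
    induction s using Finset.induction_on with
    | empty => exact ⟨fun _ => true, w, by simp, hw, by simp⟩
    | insert a t ha ih =>
      obtain ⟨ν, w', h1, h2, h3⟩ := ih
      obtain ⟨b, hb, hpb⟩ := hp w' h2 a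
      refine ⟨Function.update ν a b, qq x a b • w', ?_, hpb, ?_⟩
      · intro j hj
        by_cases hja : j = a
        · subst hja
          rw [Function.update_self]
          exact hb
        · rw [Function.update_of_ne hja]
          exact h1 j ((Finset.mem_insert.mp hj).resolve_left hja)
      · intro j hj
        by_cases hja : j = a
        · subst hja
          rw [Function.update_self]
          exact diag_qq h j b w'
        · rw [Function.update_of_ne hja, diag_qq_comm h,
            h3 j ((Finset.mem_insert.mp hj).resolve_left hja)]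
          split_ifs
          · rfl
          · exact smul_zero _
  obtain ⟨ν, w', h1, h2, h3⟩ := key Finset.univ
  exact ⟨ν, w', fun j => h1 j (Finset.mem_univ j), h2, fun j => h3 j (Finset.mem_univ j)⟩

theorem even_of_wt (μ : Fin 6 → Bool) (v : M) (hv : v ≠ 0) (hw : Wt x μ v) :
    (Finset.univ.filter fun i => μ i = true).card % 2 = 0 := by
  have h1 : ∑ i, (if μ i = true then v else 0) = 0 := by
    calc ∑ i, (if μ i = true then v else 0) = ∑ i, x i i • v :=
          Finset.sum_congr rfl fun i _ => (hw i).symm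
      _ = (∑ i, x i i) • v := by rw [Finset.sum_smul]
      _ = 0 := by rw [h.sum, zero_smul]
  rw [← Finset.sum_filter, Finset.sum_const] at h1
  by_contra hne
  have h2 : (Finset.univ.filter fun i => μ i = true).card % 2 = 1 := by omega
  set n := (Finset.univ.filter fun i => μ i = true).card with hn
  have h3 : n = 2 * (n / 2) + 1 := by omega
  rw [h3, add_smul, one_smul, mul_comm, mul_smul, two_smul, two_smul_zero h, smul_zero,
    zero_add] at h1
  exact hv h1

/-- raising a low vector -/
theorem low_raise (i : Fin 5) (v : M) (hv : Low x v)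
    (hd : (x i.castSucc i.castSucc + x i.succ i.succ) • v = 0) :
    Low x (x i.castSucc i.succ • v) := by
  intro a b hab
  rw [swap_smul h a b i.castSucc i.succ v, hv a b hab, smul_zero, zero_add]
  by_cases h1 : b = i.castSucc
  · by_cases h2 : i.succ = a
    · rw [if_pos h1, if_pos h2, ← h2, h1, add_comm, ← add_smul]
      exact hd
    · rw [if_pos h1, if_neg h2, add_zero]
      apply hv
      rw [Fin.lt_def]
      have h3 : (b : ℕ) < (a : ℕ) := hab
      have h4 : (b : ℕ) = (i : ℕ) := by rw [h1]; rfl
      have h5 : ((i.succ : Fin 6) : ℕ) = (i : ℕ) + 1 := rfl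
      have h6 : ((i.succ : Fin 6) : ℕ) ≠ (a : ℕ) := fun h7 => h2 (Fin.ext h7)
      omega
  · by_cases h2 : i.succ = a
    · rw [if_neg h1, if_pos h2, zero_add]
      apply hv
      rw [Fin.lt_def]
      have h3 : (b : ℕ) < (a : ℕ) := hab
      have h4 : (a : ℕ) = (i : ℕ) + 1 := by rw [← h2]; rfl
      have h5 : ((i.castSucc : Fin 6) : ℕ) = (i : ℕ) := rfl
      have h6 : (b : ℕ) ≠ ((i.castSucc : Fin 6) : ℕ) := fun h7 => h1 (Fin.ext h7)
      omega
    · rw [if_neg h1, if_neg h2, add_zero]

/-- lowering a vector which is killed by the other negative root vectors -/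
theorem low_lower (i : Fin 5) (z : M)
    (hz : ∀ a b : Fin 6, b < a → ¬ (a = i.succ ∧ b = i.castSucc) → x a b • z = 0) :
    Low x (x i.succ i.castSucc • z) := by
  intro a b hab
  have hne : (i.succ : Fin 6) ≠ i.castSucc := by
    intro h1
    have h2 : ((i.succ : Fin 6) : ℕ) = ((i.castSucc : Fin 6) : ℕ) := by rw [h1]
    have h3 : ((i.succ : Fin 6) : ℕ) = (i : ℕ) + 1 := rfl
    have h4 : ((i.castSucc : Fin 6) : ℕ) = (i : ℕ) := rfl
    omega
  by_cases h0 : a = i.succ ∧ b = i.castSucc
  · rw [h0.1, h0.2, ← mul_smul, h.sq _ _ hne, zero_smul]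
  · rw [swap_smul h a b i.succ i.castSucc z, hz a b hab h0, smul_zero, zero_add]
    have h3 : (b : ℕ) < (a : ℕ) := hab
    have h5 : ((i.succ : Fin 6) : ℕ) = (i : ℕ) + 1 := rfl
    have h6 : ((i.castSucc : Fin 6) : ℕ) = (i : ℕ) := rfl
    have e1 : (if b = i.succ then x a i.castSucc • z else 0) = 0 := by
      split_ifs with h1
      · have h4 : (b : ℕ) = (i : ℕ) + 1 := by rw [h1]; rfl
        apply hz
        · rw [Fin.lt_def]; omega
        · rintro ⟨h7, -⟩
          have h8 : (a : ℕ) = (i : ℕ) + 1 := by rw [h7]; rfl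
          omega
      · rfl
    have e2 : (if i.castSucc = a then x i.succ b • z else 0) = 0 := by
      split_ifs with h1
      · have h4 : (a : ℕ) = (i : ℕ) := by rw [← h1]; rfl
        apply hz
        · rw [Fin.lt_def]; omega
        · rintro ⟨-, h7⟩
          have h8 : (b : ℕ) = (i : ℕ) := by rw [h7]; rfl
          omega
      · rfl
    rw [e1, e2, add_zero]

/-- the flipped value -/
theorem raise_qq (i : Fin 5) (μ : Fin 6 → Bool) (hμ : μ i.castSucc = μ i.succ) (j : Fin 6)
    (w : M) : qq x j (μ j) • x i.castSucc i.succ • w =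
      x i.castSucc i.succ • qq x j (mv i μ j) • w := by
  have hne : (i.succ : Fin 6) ≠ i.castSucc := by
    intro h1
    have h2 : ((i.succ : Fin 6) : ℕ) = ((i.castSucc : Fin 6) : ℕ) := by rw [h1]
    have h3 : ((i.succ : Fin 6) : ℕ) = (i : ℕ) + 1 := rfl
    have h4 : ((i.castSucc : Fin 6) : ℕ) = (i : ℕ) := rfl
    omega
  have hm : mv i μ j = if j = i.castSucc ∨ j = i.succ then !(μ j) else μ j := by
    rw [mv, if_pos hμ]
  rw [hm]
  have h1 := swap_smul h j j i.castSucc i.succ w
  by_cases hj : j = i.castSucc ∨ j = i.succ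
  · rw [if_pos hj]
    have h2 : x j j • x i.castSucc i.succ • w =
        x i.castSucc i.succ • x j j • w + x i.castSucc i.succ • w := by
      rw [h1]
      congr 1
      rcases hj with hj | hj
      · rw [if_pos hj, if_neg (by rw [hj]; exact hne), add_zero, hj]
      · rw [if_neg (by rw [hj]; exact hne), if_pos hj.symm, zero_add, hj]
    cases hb : μ j with
    | true =>
      show x j j • _ = _ • qq x j false • w
      rw [qq_smul_false, h2, smul_add, add_comm]
    | false =>
      show _ = _ • x j j • w
      rw [qq_smul_false, h2, add_comm, add_assoc, two_smul_zero h, add_zero]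
  · rw [if_neg hj]
    push Not at hj
    have h2 : x j j • x i.castSucc i.succ • w = x i.castSucc i.succ • x j j • w := by
      rw [h1, if_neg hj.1, if_neg (fun h3 => hj.2 h3.symm), add_zero, add_zero]
    cases hb : μ j with
    | true => exact h2
    | false => rw [qq_smul_false, qq_smul_false, h2, smul_add]

theorem qq_of_wt (μ : Fin 6 → Bool) (v : M) (hw : Wt x μ v) (j : Fin 6) :
    qq x j (μ j) • v = v := by
  have h1 := hw j
  cases hb : μ j with
  | true => rw [qq_smul_true, h1, hb]; rfl
  | false => rw [qq_smul_false, h1, hb]; exact add_zero v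

theorem move (hyp : ∀ (i : Fin 5) (v : M), Low x v → x i.castSucc i.succ • v = 0 →
    (x i.castSucc i.castSucc + x i.succ i.succ) • v = 0 →
    ∃ z : M, (∀ a b : Fin 6, b < a → ¬ (a = i.succ ∧ b = i.castSucc) → x a b • z = 0) ∧
      v = x i.castSucc i.succ • x i.succ i.castSucc • z) (i : Fin 5) (μ : Fin 6 → Bool)
    (hv : ∃ v : M, v ≠ 0 ∧ Low x v ∧ Wt x μ v) :
    ∃ v : M, v ≠ 0 ∧ Low x v ∧ Wt x (mv i μ) v := by
  by_cases hμ : μ i.castSucc = μ i.succ
  swap
  · have : mv i μ = μ := by rw [mv, if_neg hμ]
    rw [this]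
    exact hv
  obtain ⟨v, hv0, hlow, hwt⟩ := hv
  have hd : (x i.castSucc i.castSucc + x i.succ i.succ) • v = 0 := by
    rw [add_smul, hwt, hwt, ← hμ]
    exact two_smul_zero h _
  -- a low vector whose raised vector is `v` or the other way
  by_cases h0 : x i.castSucc i.succ • v = 0
  · obtain ⟨z, hz, hvz⟩ := hyp i v hlow h0 hd
    obtain ⟨ν, w', h1, ⟨h2, h3⟩, h4⟩ := wt_all h
      (fun w => Low x w ∧ v = x i.castSucc i.succ • w) (fun j b => b = mv i μ j)
      (fun w hw j => ⟨mv i μ j, rfl, low_qq h j _ w hw.1, by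
        rw [← raise_qq h i μ hμ j w, ← hw.2, qq_of_wt h μ v hwt j]⟩)
      (x i.succ i.castSucc • z) ⟨low_lower h i z hz, hvz⟩
    have h5 : ν = mv i μ := funext h1
    rw [h5] at h4
    refine ⟨w', ?_, h2, h4⟩
    intro h6
    rw [h6, smul_zero] at h3
    exact hv0 h3
  · refine ⟨x i.castSucc i.succ • v, h0, low_raise h i v hlow hd, fun j => ?_⟩
    have h1 := raise_qq h i (mv i μ) (by
      rw [mv, if_pos hμ]
      simp [hμ]) j v
    have h2 : mv i (mv i μ) = μ := by
      have h3 : mv i μ = fun j => if j = i.castSucc ∨ j = i.succ then !(μ j) else μ j := by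
        rw [mv, if_pos hμ]
      rw [h3, mv, if_pos (by simp [hμ])]
      funext j
      by_cases hj : j = i.castSucc ∨ j = i.succ
      · simp [hj]
      · simp [hj]
    rw [h2, qq_of_wt h μ v hwt j] at h1
    have h3 := diag_qq h j (mv i μ j) (x i.castSucc i.succ • v)
    rw [h1] at h3
    exact h3

end

theorem t_LBO : S_LBO := by
  classical
  intro A _ x h M _ _ _ hyp
  refine ⟨Finset.univ.filter fun μ => ∃ v : M, v ≠ 0 ∧ Low x v ∧ Wt x μ v, ?_, ?_, ?_, ?_⟩
  · obtain ⟨w, hw, hl⟩ := exists_low h (M := M)
    obtain ⟨ν, w', -, ⟨h2, h3⟩, h4⟩ := wt_all h (fun w => w ≠ 0 ∧ Low x w) (fun _ _ => True)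
      (fun w hw j => by
        by_cases h1 : x j j • w = 0
        · refine ⟨false, trivial, ?_, low_qq h j _ w hw.2⟩
          rw [qq_smul_false, h1, add_zero]
          exact hw.1
        · exact ⟨true, trivial, h1, low_qq h j _ w hw.2⟩) w ⟨hw, hl⟩
    exact ⟨ν, by simp only [Finset.mem_filter, Finset.mem_univ, true_and]; exact ⟨w', h2, h3, h4⟩⟩
  · intro μ hμ
    simp only [Finset.mem_filter, Finset.mem_univ, true_and] at hμ
    obtain ⟨v, h1, -, h3⟩ := hμ
    exact even_of_wt h μ v h1 h3
  · intro μ hμ i
    simp only [Finset.mem_filter, Finset.mem_univ, true_and] at hμ ⊢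
    exact move h hyp i μ hμ
  · intro μ hμ
    simp only [Finset.mem_filter, Finset.mem_univ, true_and] at hμ
    exact hμ

end Pool.Agent.Q182.PIM
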